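import Pool.Agent.Y33.RN.Stm
import Pool.Agent.Y33.RN.Wl

/-!
# Project RN (helper33): depth of the detour
-/

set_option autoImplicit false

namespace Pool.Agent.Y545.RN

open Pool.Agent.TH54.BU Pool.Agent.Y33.SM Pool.Agent.H17R2 Pool.Agent.Y33.RN

theorem hd2 : S_HD2 := by
  intro r n hn
  refine ⟨1000 * (2 * r + 1) + 1, ?_⟩
  intro K G _ S u σ N hK hS hN1 hN2 h0 hN step qg far γ γstep γK
  -- arithmetic
  obtain ⟨X, hX⟩ : ∃ X, X = n * K := ⟨_, rfl⟩
  obtain ⟨Y, hY⟩ : ∃ Y, Y = n * (1000 * (2 * r + 1)) := ⟨_, rfl⟩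
  obtain ⟨Z, hZ⟩ : ∃ Z, Z = n * r := ⟨_, rfl⟩
  have aX : 2 * X ≤ N := by rw [hX, ← mul_assoc]; exact hN2
  have aK : 1000 * K ≤ X := by rw [hX]; exact Nat.mul_le_mul_right K hn
  have aY : Y < X := by
    rw [hX, hY]
    exact Nat.mul_lt_mul_of_pos_left (by omega) (by omega)
  have aZ : 1000 * Z ≤ Y := by
    have : Y = 2000 * Z + 1000 * n := by rw [hY, hZ]; ring
    omega
  have hKr : r + 1 ≤ K := by omega
  -- membership
  have hσ : ∀ k, k ≤ N → σ k ∈ Subgroup.closure S := by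
    intro k hk
    have h1 := (path_mem step k (N - k) (by omega)).1
    rw [show k + (N - k) = N by omega, hN, mul_one] at h1
    exact (Subgroup.inv_mem_iff _).1 h1
  have hg : ∀ m, m ≤ K → (γ 0)⁻¹ * γ m ∈ Subgroup.closure S ∧ wl S ((γ 0)⁻¹ * γ m) ≤ m := by
    intro m hm
    have h1 := path_mem γstep 0 m (by omega)
    rwa [zero_add] at h1
  have key : ∃ m, m ≤ K ∧ ∀ k, k ≤ N → r ≤ wl S ((γ 0 * σ k)⁻¹ * γ m) := by
    by_contra hno
    push Not at hno
    have hno' : ∀ m, m ≤ K → ∃ k, k ≤ N ∧ wl S ((σ k)⁻¹ * ((γ 0)⁻¹ * γ m)) < r ∧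
        (k < 100 * K ∨ N < k + 100 * K) := by
      intro m hm
      obtain ⟨k, hk, hlt⟩ := hno m hm
      rw [mul_inv_rev, mul_assoc] at hlt
      refine ⟨k, hk, hlt, ?_⟩
      by_contra hc
      push Not at hc
      have h1 := far k hc.1 hc.2
      have h2 := Subgroup.mul_mem _ (Subgroup.inv_mem _ (hσ k hk)) (hg m hm).1
      have h3 := wl_mul hS (hg m hm).1 (Subgroup.inv_mem _ h2)
      rw [wl_inv hS h2] at h3
      rw [show (γ 0)⁻¹ * γ m * ((σ k)⁻¹ * ((γ 0)⁻¹ * γ m))⁻¹ = σ k by group] at h3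
      have h4 := (hg m hm).2
      omega
    -- the end near `σ N`
    let P : ℕ → Prop := fun m => ∃ k, k ≤ N ∧ wl S ((σ k)⁻¹ * ((γ 0)⁻¹ * γ m)) < r ∧ N < k + 100 * K
    have hPK : ¬ P K := by
      rintro ⟨k, hk, hlt, hk2⟩
      rw [γK, ← h0] at hlt
      have h1 := qg 0 k (Nat.zero_le _) hk
      have h2 : (σ 0)⁻¹ * σ k ∈ Subgroup.closure S :=
        Subgroup.mul_mem _ (Subgroup.inv_mem _ (hσ 0 (Nat.zero_le _))) (hσ k hk)
      rw [← wl_inv hS h2, mul_inv_rev, inv_inv] at h1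
      have h3 : 1000 * n * wl S ((σ k)⁻¹ * σ 0) ≤ 1000 * n * r := Nat.mul_le_mul_left _ hlt.le
      have h4 : 1000 * n * r = 1000 * Z := by rw [hZ, mul_assoc]
      omega
    have hP0 : P 0 := by
      obtain ⟨k, hk, hlt, hor⟩ := hno' 0 (Nat.zero_le _)
      rcases hor with h | h
      · exfalso
        rw [inv_mul_cancel, mul_one] at hlt
        have h1 := qg k N hk le_rfl
        rw [hN, mul_one] at h1
        have h3 : 1000 * n * wl S (σ k)⁻¹ ≤ 1000 * n * r := Nat.mul_le_mul_left _ hlt.le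
        have h4 : 1000 * n * r = 1000 * Z := by rw [hZ, mul_assoc]
        omega
      · exact ⟨k, hk, hlt, h⟩
    have hex : ∃ m, m < K ∧ P m ∧ ¬ P (m + 1) := by
      by_contra hc
      push Not at hc
      have hall : ∀ m, m ≤ K → P m := by
        intro m
        induction m with
        | zero => exact fun _ => hP0
        | succ m ih => exact fun hm => hc m (by omega) (ih (by omega))
      exact hPK (hall K le_rfl)
    obtain ⟨m, hm, ⟨k1, hk1, hlt1, hk1'⟩, hnP⟩ := hex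
    obtain ⟨k2, hk2, hlt2, hor⟩ := hno' (m + 1) (by omega)
    have hk2' : k2 < 100 * K := by
      rcases hor with h | h
      · exact h
      · exact absurd ⟨k2, hk2, hlt2, h⟩ hnP
    have hle : k2 ≤ k1 := by omega
    have h1 := qg k2 k1 hle hk1
    have m1 : (σ k2)⁻¹ * ((γ 0)⁻¹ * γ (m + 1)) ∈ Subgroup.closure S :=
      Subgroup.mul_mem _ (Subgroup.inv_mem _ (hσ k2 hk2)) (hg (m + 1) (by omega)).1
    have m2 : (σ k1)⁻¹ * ((γ 0)⁻¹ * γ m) ∈ Subgroup.closure S :=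
      Subgroup.mul_mem _ (Subgroup.inv_mem _ (hσ k1 hk1)) (hg m (by omega)).1
    have m3 := path_mem γstep m 1 (by omega)
    have e1 := wl_inv hS m2
    have e2 := wl_inv hS m3.1
    have e3 := wl_mul hS m1 (Subgroup.inv_mem _ m3.1)
    have e4 := wl_mul hS (Subgroup.mul_mem _ m1 (Subgroup.inv_mem _ m3.1)) (Subgroup.inv_mem _ m2)
    rw [show (σ k2)⁻¹ * ((γ 0)⁻¹ * γ (m + 1)) * ((γ m)⁻¹ * γ (m + 1))⁻¹ *
      ((σ k1)⁻¹ * ((γ 0)⁻¹ * γ m))⁻¹ = (σ k2)⁻¹ * σ k1 by group] at e4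
    have e5 : wl S ((σ k2)⁻¹ * σ k1) ≤ 2 * r + 1 := by
      have := m3.2
      omega
    have e6 : 1000 * n * wl S ((σ k2)⁻¹ * σ k1) ≤ 1000 * n * (2 * r + 1) :=
      Nat.mul_le_mul_left _ e5
    have e7 : 1000 * n * (2 * r + 1) = Y := by rw [hY]; ring
    omega
  obtain ⟨m, hm, hfar⟩ := key
  refine ⟨0, m, K, fun k => γ 0 * σ (N - k), N, Nat.zero_le _, hm, le_rfl, ?_, hN1, ?_, ?_, ?_,
    ?_, ?_⟩
  · rw [zero_add]
    have : K ≤ 20 * n * K := by
      have h1 : 1 * K ≤ (20 * n) * K := Nat.mul_le_mul_right K (by omega)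
      rwa [one_mul] at h1
    exact this
  · simp only [Nat.sub_zero, hN, mul_one]
  · simp only [Nat.sub_self, h0, ← γK]
    group
  · intro k hk
    have h1 := hS _ (step (N - (k + 1)) (by omega))
    rw [show N - (k + 1) + 1 = N - k by omega] at h1
    rw [show (γ 0 * σ (N - k))⁻¹ * (γ 0 * σ (N - (k + 1))) =
      ((σ (N - (k + 1)))⁻¹ * σ (N - k))⁻¹ by group]
    exact h1
  · intro k k' hkk hk'
    have h1 := qg (N - k') (N - k) (by omega) (by omega)
    have h2 : (σ (N - k'))⁻¹ * σ (N - k) ∈ Subgroup.closure S :=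
      Subgroup.mul_mem _ (Subgroup.inv_mem _ (hσ _ (by omega))) (hσ _ (by omega))
    rw [show (γ 0 * σ (N - k))⁻¹ * (γ 0 * σ (N - k')) = ((σ (N - k'))⁻¹ * σ (N - k))⁻¹ by group,
      wl_inv hS h2]
    omega
  · intro k _
    exact hfar (N - k) (by omega)

end Pool.Agent.Y545.RN
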